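import Mathlib

namespace Pool.Agent.H.MP_a37635_nt

noncomputable def g (w : ℂ) : ℂ := w ^ 2 + 1 / 4

def Fin' (w : ℂ) : Prop := (Set.range fun n : ℕ => g^[n] w).Finite

theorem Fin'.next {w : ℂ} (h : Fin' w) : Fin' (g w) := by
  refine Set.Finite.subset h ?_
  rintro _ ⟨n, rfl⟩
  exact ⟨n + 1, rfl⟩

theorem grow (w : ℂ) (h : 1.21 < ‖w‖) : ‖w‖ < ‖g w‖ := by
  have h1 : ‖w ^ 2‖ ≤ ‖g w‖ + ‖(1 / 4 : ℂ)‖ := by
    have : w ^ 2 = g w - 1 / 4 := by unfold g; ring
    rw [this]; exact norm_sub_le _ _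
  rw [norm_pow] at h1
  have h2 : ‖(1 / 4 : ℂ)‖ = 1 / 4 := by simp
  nlinarith

theorem esc (w : ℂ) (h : 1.21 < ‖w‖) : ¬ Fin' w := by
  have hb : ∀ n, 1.21 < ‖g^[n] w‖ := by
    intro n
    induction n with
    | zero => exact h
    | succ n ih => rw [Function.iterate_succ_apply']; exact ih.trans (grow _ ih)
  have sm : StrictMono fun n => ‖g^[n] w‖ := strictMono_nat_of_lt_succ fun n => by
    rw [Function.iterate_succ_apply']; exact grow _ (hb n)
  refine Set.infinite_range_of_injective fun m n hmn => sm.injective ?_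
  exact congrArg norm hmn

def S : ℤ := 1048576

def sqHi (a b : ℤ) : ℤ := max (a * a) (b * b)
def sqLo (a b : ℤ) : ℤ := if 0 ≤ a then a * a else if b ≤ 0 then b * b else 0
def mLo (a b c d : ℤ) : ℤ := min (min (a * c) (a * d)) (min (b * c) (b * d))
def mHi (a b c d : ℤ) : ℤ := max (max (a * c) (a * d)) (max (b * c) (b * d))

theorem sqHi_s (a b : ℤ) (x : ℝ) (h1 : a ≤ x) (h2 : x ≤ b) : x * x ≤ sqHi a b := by
  unfold sqHi
  push_cast
  rcases le_total 0 x with h | h
  · exact le_max_of_le_right (by nlinarith)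
  · exact le_max_of_le_left (by nlinarith)

theorem sqLo_s (a b : ℤ) (x : ℝ) (h1 : a ≤ x) (h2 : x ≤ b) : sqLo a b ≤ x * x := by
  unfold sqLo
  split_ifs with h h'
  · have : (0 : ℝ) ≤ a := by exact_mod_cast h
    push_cast; nlinarith
  · have : (b : ℝ) ≤ 0 := by exact_mod_cast h'
    push_cast; nlinarith
  · push_cast; nlinarith

theorem mLo_s (a b c d : ℤ) (x y : ℝ) (h1 : a ≤ x) (h2 : x ≤ b) (h3 : c ≤ y) (h4 : y ≤ d) :
    mLo a b c d ≤ x * y := by
  unfold mLo
  push_cast
  rcases le_total 0 y with h | h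
  · refine (min_le_left _ _).trans (le_trans ?_ (show (a : ℝ) * y ≤ x * y by nlinarith))
    rcases le_total 0 (a : ℝ) with k | k
    · exact min_le_of_left_le (by nlinarith)
    · exact min_le_of_right_le (by nlinarith)
  · refine (min_le_right _ _).trans (le_trans ?_ (show (b : ℝ) * y ≤ x * y by nlinarith))
    rcases le_total 0 (b : ℝ) with k | k
    · exact min_le_of_left_le (by nlinarith)
    · exact min_le_of_right_le (by nlinarith)

theorem mHi_s (a b c d : ℤ) (x y : ℝ) (h1 : a ≤ x) (h2 : x ≤ b) (h3 : c ≤ y) (h4 : y ≤ d) :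
    x * y ≤ mHi a b c d := by
  unfold mHi
  push_cast
  rcases le_total 0 y with h | h
  · refine le_trans (le_trans (show x * y ≤ (b : ℝ) * y by nlinarith) ?_) (le_max_right _ _)
    rcases le_total 0 (b : ℝ) with k | k
    · exact le_max_of_le_right (by nlinarith)
    · exact le_max_of_le_left (by nlinarith)
  · refine le_trans (le_trans (show x * y ≤ (a : ℝ) * y by nlinarith) ?_) (le_max_left _ _)
    rcases le_total 0 (a : ℝ) with k | k
    · exact le_max_of_le_right (by nlinarith)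
    · exact le_max_of_le_left (by nlinarith)

def InB (a b c d : ℤ) (w : ℂ) : Prop :=
  (a : ℝ) ≤ 1048576 * w.re ∧ 1048576 * w.re ≤ b ∧ (c : ℝ) ≤ 1048576 * w.im ∧ 1048576 * w.im ≤ d

theorem dLo (m : ℤ) (v : ℝ) (h : (m : ℝ) ≤ 1048576 * v) : ((m / S : ℤ) : ℝ) ≤ v := by
  have : m / S * S ≤ m := Int.ediv_mul_le m (by unfold S; norm_num)
  have h2 : ((m / S : ℤ) : ℝ) * 1048576 ≤ m := by unfold S at *; exact_mod_cast this
  linarith

theorem dHi (m : ℤ) (v : ℝ) (h : 1048576 * v ≤ (m : ℝ)) : v ≤ ((m / S + 1 : ℤ) : ℝ) := by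
  have : m < (m / S + 1) * S := Int.lt_ediv_add_one_mul_self m (by unfold S; norm_num)
  have h2 : (m : ℝ) < ((m / S + 1 : ℤ) : ℝ) * 1048576 := by unfold S at *; exact_mod_cast this
  linarith

def it : ℕ → ℤ → ℤ → ℤ → ℤ → Bool
  | 0, _, _, _, _ => false
  | n + 1, a, b, c, d => decide (1609794974227 < sqLo a b + sqLo c d) ||
      it n ((sqLo a b - sqHi c d) / S + 262144) ((sqHi a b - sqLo c d) / S + 1 + 262144)
        ((2 * mLo a b c d) / S) ((2 * mHi a b c d) / S + 1)

theorem it_s : ∀ n a b c d, it n a b c d = true → ∀ w, InB a b c d w → ¬ Fin' w := by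
  intro n
  induction n with
  | zero => intro a b c d h; simp [it] at h
  | succ n ih =>
    intro a b c d h w ⟨h1, h2, h3, h4⟩
    simp only [it, Bool.or_eq_true, decide_eq_true_eq] at h
    have s1 := sqLo_s a b _ h1 h2
    have s2 := sqHi_s a b _ h1 h2
    have s3 := sqLo_s c d _ h3 h4
    have s4 := sqHi_s c d _ h3 h4
    have s5 := mLo_s a b c d _ _ h1 h2 h3 h4
    have s6 := mHi_s a b c d _ _ h1 h2 h3 h4
    rcases h with h | h
    · apply esc
      have h' : (1609794974227 : ℝ) < sqLo a b + sqLo c d := by exact_mod_cast h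
      have n2 : ‖w‖ ^ 2 = w.re * w.re + w.im * w.im := by
        rw [Complex.sq_norm, Complex.normSq_apply]
      have : (1.21 : ℝ) ^ 2 < ‖w‖ ^ 2 := by rw [n2]; nlinarith
      exact lt_of_pow_lt_pow_left₀ 2 (norm_nonneg _) this
    · intro hf
      have r : (g w).re = w.re * w.re - w.im * w.im + 1 / 4 := by
        unfold g; simp [pow_two]
      have i : (g w).im = 2 * w.re * w.im := by
        unfold g; simp [pow_two]; ring
      refine ih _ _ _ _ h (g w) ⟨?_, ?_, ?_, ?_⟩ hf.next
      · have := dLo (sqLo a b - sqHi c d) (1048576 * (w.re * w.re - w.im * w.im))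
          (by push_cast; nlinarith)
        rw [r]; push_cast at this ⊢; linarith
      · have := dHi (sqHi a b - sqLo c d) (1048576 * (w.re * w.re - w.im * w.im))
          (by push_cast; nlinarith)
        rw [r]; push_cast at this ⊢; linarith
      · have := dLo (2 * mLo a b c d) (1048576 * (2 * w.re * w.im)) (by push_cast; nlinarith)
        rw [i]; exact this
      · have := dHi (2 * mHi a b c d) (1048576 * (2 * w.re * w.im)) (by push_cast; nlinarith)
        rw [i]; exact this

def ok : ℕ → ℤ → ℤ → ℤ → ℤ → Bool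
  | 0, _, _, _, _ => false
  | n + 1, a, b, c, d => it 9 a b c d ||
      (if d - c ≤ b - a then ok n a ((a + b) / 2) c d && ok n ((a + b) / 2) b c d
       else ok n a b c ((c + d) / 2) && ok n a b ((c + d) / 2) d)

theorem ok_s : ∀ n a b c d, ok n a b c d = true → ∀ w, InB a b c d w → ¬ Fin' w := by
  intro n
  induction n with
  | zero => intro a b c d h; simp [ok] at h
  | succ n ih =>
    intro a b c d h w hw
    simp only [ok, Bool.or_eq_true] at h
    rcases h with h | h
    · exact it_s _ _ _ _ _ h w hw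
    · obtain ⟨h1, h2, h3, h4⟩ := hw
      split_ifs at h
      · rw [Bool.and_eq_true] at h
        rcases le_total (1048576 * w.re) (((a + b) / 2 : ℤ) : ℝ) with k | k
        · exact ih _ _ _ _ h.1 w ⟨h1, k, h3, h4⟩
        · exact ih _ _ _ _ h.2 w ⟨k, h2, h3, h4⟩
      · rw [Bool.and_eq_true] at h
        rcases le_total (1048576 * w.im) (((c + d) / 2 : ℤ) : ℝ) with k | k
        · exact ih _ _ _ _ h.1 w ⟨h1, h2, h3, k⟩
        · exact ih _ _ _ _ h.2 w ⟨h1, h2, k, h4⟩

theorem chk : ok 30 873813 1310720 0 1310720 = true := by decide +kernel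

theorem re_lt0 (w : ℂ) (h : Fin' w) (h0 : 0 ≤ w.im) : w.re < 5 / 6 := by
  by_contra hc
  have hn : ‖w‖ ≤ 1.21 := by
    by_contra h'
    exact esc w (lt_of_not_ge h') h
  have h1 := Complex.abs_re_le_norm w
  have h2 := Complex.abs_im_le_norm w
  rw [abs_le] at h1 h2
  refine ok_s _ _ _ _ _ chk w ⟨?_, ?_, ?_, ?_⟩ h <;> push_cast <;> linarith [h1.2, h2.1, h2.2]

theorem star_it (w : ℂ) (n : ℕ) : g^[n] (star w) = star (g^[n] w) := by
  induction n with
  | zero => rfl
  | succ n ih =>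
    rw [Function.iterate_succ_apply', Function.iterate_succ_apply', ih]
    unfold g; simp

theorem re_lt (w : ℂ) (h : Fin' w) : w.re < 5 / 6 := by
  rcases le_total 0 w.im with h0 | h0
  · exact re_lt0 w h h0
  · have : Fin' (star w) := by
      refine (h.image star).subset ?_
      rintro _ ⟨n, rfl⟩
      exact ⟨_, ⟨n, rfl⟩, (star_it w n).symm⟩
    simpa using re_lt0 _ this (by simpa using h0)

theorem conj (z : ℂ) (n : ℕ) : g^[n] (z + 1 / 2) = (fun x : ℂ => x ^ 2 + x)^[n] z + 1 / 2 := by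
  induction n with
  | zero => rfl
  | succ n ih =>
    rw [Function.iterate_succ_apply', Function.iterate_succ_apply', ih]
    unfold g; ring

theorem re_lt' (z : ℂ) (h : (Set.range fun n : ℕ => (fun x : ℂ => x ^ 2 + x)^[n] z).Finite) :
    z.re < 1 / 3 := by
  have : Fin' (z + 1 / 2) := by
    refine (h.image (fun x => x + 1 / 2)).subset ?_
    rintro _ ⟨n, rfl⟩
    exact ⟨_, ⟨n, rfl⟩, (conj z n).symm⟩
  have := re_lt _ this
  simp at this
  linarith

end Pool.Agent.H.MP_a37635_nt
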